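import Pool.Agent.H31.PH.Final

/-!
# Hadamard matrices up to `n ^ (2 / 3 + ε)` missing rows
-/

namespace Pool.Agent.Results.MP_d8b1b3_co.TwoThirds

theorem result (ε : ℝ) (hε : 0 < ε) : ∃ N : ℕ, ∀ n : ℕ, N ≤ n → 4 ∣ n → ∀ k : ℕ,
    (k : ℝ) ≤ (n : ℝ) - (n : ℝ) ^ (2 / 3 + ε : ℝ) →
    ∃ M : Matrix (Fin k) (Fin n) ℤ, (∀ i j, M i j = 1 ∨ M i j = -1) ∧
      M * M.transpose = (n : ℤ) • (1 : Matrix (Fin k) (Fin k) ℤ) := by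
  obtain ⟨N, hN⟩ := Pool.Agent.H31.PH.main ε hε
  refine ⟨N, fun n hn h4 k hk => ?_⟩
  obtain ⟨k', hk', hM⟩ := hN n hn h4
  have hle : k ≤ k' := by exact_mod_cast hk.trans hk'
  exact Pool.Agent.N328.PH.HasPH.mono hM hle

end Pool.Agent.Results.MP_d8b1b3_co.TwoThirds
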